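import Mathlib

set_option autoImplicit false

/-!
# The conjectured bound for the common value of `σ₃` and `σ_n` fails for `n = 11`

The tuple `(1, 1, 1, 1, 1, 1, 1, 2, 10, 126, 16177)` satisfies `σ₃ = σ₁₁ = 40766040`, whereas the
conjectured bound is `40732020`.
-/

namespace Pool.Agent.Results.MP_c4e411_nt.BoundsFail

/-- the `i`-th elementary symmetric polynomial of the entries of the tuple `x` -/
def sigma {n : ℕ} (i : ℕ) (x : Fin n → ℕ) : ℕ :=
  ∑ s ∈ (Finset.univ : Finset (Fin n)).powersetCard i, ∏ j ∈ s, x j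

/-- the conjectured bound for the common value `m` -/
def boundM (n : ℕ) : ℚ :=
  1 / 12 * (3021 * (n : ℚ) ^ 6 - 77575 * (n : ℚ) ^ 5 + 920361 * (n : ℚ) ^ 4
    - 6235705 * (n : ℚ) ^ 3 + 24764202 * (n : ℚ) ^ 2 - 53664304 * n + 48986640)

/-- the conjectured bound for the largest entry -/
def boundX (n : ℕ) : ℚ :=
  1 / 12 * (27 * (n : ℚ) ^ 4 - 190 * (n : ℚ) ^ 3 + 471 * (n : ℚ) ^ 2 - 500 * n + 216)

/-- the statement of the question -/
def Conjecture : Prop :=
  ∀ n : ℕ, 4 ≤ n → ∀ x : Fin n → ℕ, Monotone x → (∀ j, 1 ≤ x j) → sigma 3 x = sigma n x →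
    (sigma n x : ℚ) ≤ boundM n ∧ ∀ j, (x j : ℚ) ≤ boundX n

/-- a solution for `n = 11` -/
def sol : Fin 11 → ℕ := ![1, 1, 1, 1, 1, 1, 1, 2, 10, 126, 16177]

theorem sol_mono : Monotone sol := by
  decide

theorem sol_sigma3 : sigma 3 sol = 40766040 := by
  decide +kernel

theorem sol_sigma11 : sigma 11 sol = 40766040 := by
  decide +kernel

/-- **The conjecture is false**: the bound for the common value fails for `n = 11`. -/
theorem result : ¬ Conjecture := by
  intro h
  have h1 := (h 11 (by norm_num) sol sol_mono (by decide) (by rw [sol_sigma3, sol_sigma11])).1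
  rw [sol_sigma11] at h1
  norm_num [boundM] at h1

end Pool.Agent.Results.MP_c4e411_nt.BoundsFail
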